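import Pool.Agent.R759.RDFinal

/-!
# Intrinsic volumes of rhombic dodecahedra of mean width one

Positive answer to Q1. The definitions `zonotope`, `wedge`, `V` (intrinsic volumes of a zonotope),
`kappa`, `meanWidth`, `IsRegularSimplex`, `IsRegularRD` are in `Pool/Agent/R759/RDDefs.lean`.

Proof. Put `n = d + 1`, `r_i = |p_i|`, `p_i = √r_i v_i`, so `|v_i|² = r_i`. By the Cauchy-Schwarz
inequality `V_k(Z)² ≤ (∑_I ∏_{i ∈ I} r_i) (∑_I det Gram (v_i)_{i ∈ I})`. The first factor is the
elementary symmetric function `e_k` of the `r_i`, the second one is `e_k` of the `d` eigenvalues of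
`∑ v_i v_iᵀ`; both families have the sum `L = ∑ |p_i|`, so Maclaurin's inequality gives
`V_k(Z)² ≤ C(n,k) (L/n)^k C(d,k) (L/d)^k`. Equality holds for the regular simplex, and it forces the
`p_i` to have equal length and to form a tight frame, so that they are the vertices of a regular
simplex up to signs.
-/

set_option autoImplicit false

namespace Pool.Agent.Results.MP_c3e14a_gt.RegularMaximal

open Pool.Agent.R759.RD

/-- Let `1 < k < d`. There are regular rhombic dodecahedra of mean width one. Let
`Z = ∑_{i=1}^{d+1} [o, p_i]` be any rhombic dodecahedron in `ℝ^d` with mean width one. Then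
`V_k(Z) ≤ V_k(∑ [o, q_i])` for every regular simplex `q_1, …, q_{d+1}` centred at `o` with
`w(∑ [o, q_i]) = 1`, and if `V_k(Z)` is maximal among all rhombic dodecahedra of mean width one,
then `Z` is regular. -/
theorem result (d k : ℕ) (hk : 1 < k) (hkd : k < d) :
    (∃ q : Fin (d + 1) → EuclideanSpace ℝ (Fin d), IsRegularSimplex q ∧ meanWidth q = 1) ∧
    ∀ p : Fin (d + 1) → EuclideanSpace ℝ (Fin d), Submodule.span ℝ (Set.range p) = ⊤ →
      meanWidth p = 1 →
        (∀ q : Fin (d + 1) → EuclideanSpace ℝ (Fin d), IsRegularSimplex q → meanWidth q = 1 →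
          V k p ≤ V k q) ∧
        ((∀ p' : Fin (d + 1) → EuclideanSpace ℝ (Fin d), Submodule.span ℝ (Set.range p') = ⊤ →
          meanWidth p' = 1 → V k p' ≤ V k p) → IsRegularRD (zonotope p)) := by
  have hd : 0 < d := by omega
  have hd0 : (0 : ℝ) < d := by exact_mod_cast hd
  have hC0 : 0 < 2 * kappa (d - 1) / (d * kappa d) := by
    have := kappa_pos (d - 1)
    have := kappa_pos d
    positivity
  have hL : ∀ p : Fin (d + 1) → EuclideanSpace ℝ (Fin d), meanWidth p = 1 →
      ∑ i, ‖p i‖ = (2 * kappa (d - 1) / (d * kappa d))⁻¹ := by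
    intro p hp
    unfold meanWidth at hp
    rw [V_one] at hp
    exact eq_inv_of_mul_eq_one_right hp
  have hval : ∀ q : Fin (d + 1) → EuclideanSpace ℝ (Fin d), IsRegularSimplex q →
      meanWidth q = 1 → V k q = bound (d + 1) d k ((2 * kappa (d - 1) / (d * kappa d))⁻¹) := by
    intro q hq hqw
    obtain ⟨r, hr, hn, hg⟩ := hq.gram hd
    rw [V_regular hd k hkd.le hr hn hg, hL q hqw]
  have hle : ∀ p : Fin (d + 1) → EuclideanSpace ℝ (Fin d), meanWidth p = 1 →
      V k p ≤ bound (d + 1) d k ((2 * kappa (d - 1) / (d * kappa d))⁻¹) := by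
    intro p hp
    rw [← hL p hp]
    exact V_le k p
  obtain ⟨q, hq, hqw⟩ := exists_regular_meanWidth hd
  refine ⟨⟨q, hq, hqw⟩, fun p _ hp => ⟨fun q' hq' hqw' => ?_, fun hmax => ?_⟩⟩
  · rw [hval q' hq' hqw']
    exact hle p hp
  · have hspan : Submodule.span ℝ (Set.range q) = ⊤ := regular_span hd hq
    refine regular_of_V_eq k hk hkd.le p ?_ ?_
    · rw [hL p hp]
      exact inv_pos.2 hC0
    · rw [hL p hp]
      refine le_antisymm (hle p hp) ?_
      rw [← hval q hq hqw]
      exact hmax q hspan hqw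

end Pool.Agent.Results.MP_c3e14a_gt.RegularMaximal
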